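import Pool.Agent.Lib.MP_b9c6dd_an.BU.Main

/-!
# Borsuk-Ulam for products of cubes (from `BU/Main.lean`, helper58)
-/

set_option autoImplicit false

namespace Pool.Agent.B9x.U

/-- Sign change. -/
def sa {V : Type} [Neg V] (b : Bool) (v : V) : V := if b = true then -v else v

theorem bup_pi {P : Type} [Fintype P] [DecidableEq P] (a : P → ℕ) (h : P → ℕ)
    (χ : P → P → Bool) (h1 : ∀ k, χ k k = true)
    (h2 : ∀ k m, χ k m = true → m ≠ k → h m < h k)
    (F : (∀ k, Fin (a k) → ℝ) → (∀ k, Fin (a k) → ℝ)) (hF : Continuous F)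
    (hs : ∀ (k : P) (v : ∀ k, Fin (a k) → ℝ), ‖v k‖ = 1 →
      ∀ m, F (Function.update v k (-(v k))) m = sa (χ m k) (F v m)) :
    ∃ v : ∀ k, Fin (a k) → ℝ, F v = 0 := by
  have hodd : ∀ (k : P) (v : ∀ k : P, Fin (a k) → ℝ), (∀ m j, |v m j| ≤ 1) →
      (∃ j, |v k j| = 1) → ∀ m j, F (Function.update v k (- v k)) m j =
        (if χ m k = true then - F v m j else F v m j) := by
    intro k v hv1 hv2 m j
    have h3 : ‖v k‖ = 1 := by
      apply le_antisymm
      · exact (pi_norm_le_iff_of_nonneg zero_le_one).2 fun j => by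
          rw [Real.norm_eq_abs]
          exact hv1 k j
      · obtain ⟨j, hj⟩ := hv2
        rw [← hj, ← Real.norm_eq_abs]
        exact norm_le_pi_norm (v k) j
    have h4 := congrFun (hs k v h3 m) j
    rw [h4]
    unfold sa
    split_ifs
    · rfl
    · rfl
  obtain ⟨v, -, hv⟩ := BUC.BUP a χ h1 h (fun k m hne hkm => h2 k m hkm hne) F hF hodd
  exact ⟨v, hv⟩

end Pool.Agent.B9x.U
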